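import Pool.Agent.Helper7.J9
import Pool.Agent.Helper7.AF.Defs

/-!
Rational descent for divisorial + Weil classes: a rational class which is a complex combination of
wedge products of pull-backs of polarisations and of forms of Weil type (with complex coefficients)
is the sum of a divisorial class and of Weil classes.
-/

namespace Pool.Agent.Helper28

open Module Pool.Agent.Helper7 Pool.Agent.GPC

section general

variable {W : Type*} [AddCommGroup W] [Module ℂ W] {B : Type*} [Fintype B] [DecidableEq B]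

/-- the multilinear form with given values on a basis -/
noncomputable def mulOfValues (F : Basis B ℂ W) {m : ℕ} (y : (Fin m → B) → ℂ) :
    MultilinearMap ℂ (fun _ : Fin m => W) ℂ :=
  ∑ s : Fin m → B, y s • (MultilinearMap.mkPiAlgebra ℂ (Fin m) ℂ).compLinearMap
    (fun r => F.coord (s r))

lemma mulOfValues_basis (F : Basis B ℂ W) {m : ℕ} (y : (Fin m → B) → ℂ) (s : Fin m → B) :
    mulOfValues F y (fun r => F (s r)) = y s := by
  rw [mulOfValues, MultilinearMap.sum_apply, Finset.sum_eq_single s]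
  · rw [MultilinearMap.smul_apply, MultilinearMap.compLinearMap_apply,
      MultilinearMap.mkPiAlgebra_apply]
    simp
  · intro s' _ hs
    rw [MultilinearMap.smul_apply, MultilinearMap.compLinearMap_apply,
      MultilinearMap.mkPiAlgebra_apply]
    obtain ⟨r, hr⟩ : ∃ r, s' r ≠ s r := by
      by_contra h
      push Not at h
      exact hs (funext h)
    rw [Finset.prod_eq_zero (Finset.mem_univ r), smul_zero]
    rw [Basis.coord_apply, Basis.repr_self, Finsupp.single_eq_of_ne hr]
  · intro h
    exact absurd (Finset.mem_univ s) h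

/-- an alternating form is a combination, with coefficients independent over the rational numbers,
of alternating forms with rational values on a basis -/
theorem form_decomp (F : Basis B ℂ W) {m : ℕ} (κ : ℂ) (hκ : κ ≠ 0)
    (w : W [⋀^Fin m]→ₗ[ℂ] ℂ) :
    ∃ (N : ℕ) (c : Fin N → ℂ) (ω : Fin N → W [⋀^Fin m]→ₗ[ℂ] ℂ), LinearIndependent ℚ c ∧
      (∀ l, ∀ s : Fin m → B, ∃ q : ℚ, ω l (fun r => F (s r)) = κ * q) ∧
      w = ∑ l, c l • ω l := by
  obtain ⟨N, c, y, hc, hy⟩ := exists_rat_decomp
    (fun s : Fin m → B => κ⁻¹ * w (fun r => F (s r)))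
  have hfac : ((Nat.factorial (Fintype.card (Fin m)) : ℕ) : ℂ) ≠ 0 :=
    Nat.cast_ne_zero.mpr (Nat.factorial_ne_zero _)
  let ω : Fin N → W [⋀^Fin m]→ₗ[ℂ] ℂ := fun l =>
    ((Nat.factorial (Fintype.card (Fin m)) : ℂ))⁻¹ •
      MultilinearMap.alternatization (mulOfValues F fun s => κ * (y l s : ℂ))
  have hω : ∀ (l : Fin N) (s : Fin m → B), ω l (fun r => F (s r)) =
      ((Nat.factorial (Fintype.card (Fin m)) : ℂ))⁻¹ *
      ∑ π : Equiv.Perm (Fin m), ((Equiv.Perm.sign π : ℤ) : ℂ) *
        (κ * (y l (fun r => s (π r)) : ℂ)) := by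
    intro l s
    show (((Nat.factorial (Fintype.card (Fin m)) : ℂ))⁻¹ •
      MultilinearMap.alternatization (mulOfValues F fun s => κ * (y l s : ℂ))) _ = _
    rw [AlternatingMap.smul_apply, MultilinearMap.alternatization_apply, smul_eq_mul]
    congr 1
    refine Finset.sum_congr rfl fun π _ => ?_
    rw [Units.smul_def, zsmul_eq_mul]
    congr 1
    exact mulOfValues_basis F (fun s => κ * (y l s : ℂ)) (fun r => s (π r))
  refine ⟨N, c, ω, hc, ?_, ?_⟩
  · intro l s
    refine ⟨((Nat.factorial (Fintype.card (Fin m)) : ℚ))⁻¹ *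
      ∑ π : Equiv.Perm (Fin m), ((Equiv.Perm.sign π : ℤ) : ℚ) * y l (fun r => s (π r)), ?_⟩
    rw [hω]
    push_cast
    rw [mul_left_comm, Finset.mul_sum (a := κ)]
    congr 1
    exact Finset.sum_congr rfl fun π _ => by ring
  · apply AlternatingMap.coe_multilinearMap_injective
    apply Basis.ext_multilinear (fun _ => F)
    intro s
    show w (fun r => F (s r)) = (∑ l, c l • ω l) (fun r => F (s r))
    rw [alt_sum_apply]
    have h1 : ∀ l, (c l • ω l) (fun r => F (s r)) =
        ((Nat.factorial (Fintype.card (Fin m)) : ℂ))⁻¹ * ∑ π : Equiv.Perm (Fin m),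
          ((Equiv.Perm.sign π : ℤ) : ℂ) * (κ * (c l * (y l (fun r => s (π r)) : ℂ))) := by
      intro l
      rw [AlternatingMap.smul_apply, smul_eq_mul, hω, mul_left_comm, Finset.mul_sum (a := c l)]
      congr 1
      exact Finset.sum_congr rfl fun π _ => by ring
    rw [Finset.sum_congr rfl fun l _ => h1 l, ← Finset.mul_sum, Finset.sum_comm]
    have h2 : ∀ π : Equiv.Perm (Fin m), ∑ l, ((Equiv.Perm.sign π : ℤ) : ℂ) *
        (κ * (c l * (y l (fun r => s (π r)) : ℂ))) = w (fun r => F (s r)) := by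
      intro π
      rw [← Finset.mul_sum, ← Finset.mul_sum, ← hy (fun r => s (π r)), ← mul_assoc κ,
        mul_inv_cancel₀ hκ, one_mul]
      have h3 := AlternatingMap.map_perm w (fun r => F (s r)) π
      have h4 : w (fun r => F (s (π r))) = Equiv.Perm.sign π • w (fun r => F (s r)) := h3
      rw [h4, Units.smul_def, zsmul_eq_mul, ← mul_assoc, ← Int.cast_mul, Int.units_coe_mul_self,
        Int.cast_one, one_mul]
    rw [Finset.sum_congr rfl fun π _ => h2 π, Finset.sum_const, Finset.card_univ,
      Fintype.card_perm, nsmul_eq_mul, ← mul_assoc, inv_mul_cancel₀ hfac, one_mul]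

omit [DecidableEq B] in
/-- rational values on a basis imply rational values on rational vectors -/
theorem rat_of_basis (F : Basis B ℂ W) {m : ℕ} (κ : ℂ)
    (w : MultilinearMap ℂ (fun _ : Fin m => W) ℂ)
    (hw : ∀ s : Fin m → B, ∃ q : ℚ, w (fun r => F (s r)) = κ * q)
    (v : Fin m → W) (hv : ∀ r b, ∃ q : ℚ, F.repr (v r) b = q) : ∃ q : ℚ, w v = κ * q := by
  choose x hx using hv
  choose q hq using hw
  have h1 : v = fun r => ∑ b, (x r b : ℂ) • F b := by
    funext r
    conv_lhs => rw [← F.sum_repr (v r)]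
    exact Finset.sum_congr rfl fun b _ => by rw [hx]
  refine ⟨∑ s : Fin m → B, (∏ r, x r (s r)) * q s, ?_⟩
  rw [h1, MultilinearMap.map_sum]
  push_cast
  rw [Finset.mul_sum]
  refine Finset.sum_congr rfl fun s _ => ?_
  rw [MultilinearMap.map_smul_univ, hq, smul_eq_mul]
  ring

end general

section family

variable {I : Type} [Fintype I] (A : I → AbVar) (n : I → ℕ)

lemma repr_rat_of_isBetti [DecidableEq I] (v : H1 A n) (hv : IsBetti A n v)
    (b : Σ i, Σ (_ : Fin (n i)), (pData (A i)).ι) :
    ∃ q : ℚ, (FBP n (fun i => pData (A i))).repr v b = q := by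
  obtain ⟨i, m, p⟩ := b
  have h1 : (FBP n (fun i => pData (A i))).repr v ⟨i, m, p⟩ = (pData (A i)).bB.repr (v i m) p := by
    rw [FBP, Pi.basis_repr, Pi.basis_repr]
  rw [h1]
  exact (pData (A i)).repr_rat _ ((mem_pData_Q _ _).mpr (hv i m)) p

lemma isBetti_FBP [DecidableEq I] (b : Σ i, Σ (_ : Fin (n i)), (pData (A i)).ι) :
    IsBetti A n (FBP n (fun i => pData (A i)) b) := fun i m =>
  (mem_pData_Q _ _).mp (FBP_isRatP n (fun i => pData (A i)) b i m)

/-- the condition of Weil type for an endomorphism `J` -/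
def WeilCond (J : H1 A n → H1 A n) {m : ℕ} (w : Form A n m) : Prop :=
  ∀ v r s, w (Function.update v r (J (v r))) = w (Function.update v s (J (v s)))

omit [Fintype I] in
lemma update_eq_comp (J : H1 A n →ₗ[ℂ] H1 A n) {m : ℕ} (w : Form A n m) (v : Fin m → H1 A n)
    (r : Fin m) : w (Function.update v r (J (v r))) =
      ((w : MultilinearMap ℂ (fun _ : Fin m => H1 A n) ℂ).compLinearMap
        (Function.update (fun _ => LinearMap.id) r J)) v := by
  rw [MultilinearMap.compLinearMap_apply]
  show w _ = w _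
  congr 1
  funext i
  by_cases h : i = r
  · subst h
    rw [Function.update_self, Function.update_self]
  · rw [Function.update_of_ne h, Function.update_of_ne h, LinearMap.id_apply]

/-- forms of Weil type are combinations of rational ones -/
theorem weil_decomp [DecidableEq I] {m : ℕ} (κ : ℂ) (hκ : κ ≠ 0) (J : H1 A n → H1 A n)
    (hJ : IsLinearMap ℂ J) (hJb : ∀ v, IsBetti A n v → IsBetti A n (J v)) (w : Form A n m)
    (hw : WeilCond A n J w) :
    ∃ (N : ℕ) (c : Fin N → ℂ) (ω : Fin N → Form A n m),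
      (∀ l, ∀ s : Fin m → (Σ i, Σ (_ : Fin (n i)), (pData (A i)).ι), ∃ q : ℚ,
        ω l (fun r => FBP n (fun i => pData (A i)) (s r)) = κ * q) ∧
      (∀ l, WeilCond A n J (ω l)) ∧ w = ∑ l, c l • ω l := by
  classical
  obtain ⟨N, c, ω, hc, hω, hsum⟩ := form_decomp (FBP n (fun i => pData (A i))) κ hκ w
  refine ⟨N, c, ω, hω, fun l => ?_, hsum⟩
  set L : H1 A n →ₗ[ℂ] H1 A n := IsLinearMap.mk' J hJ with hL
  have hLJ : ∀ v, L v = J v := fun v => rfl
  intro v r s
  rw [← hLJ (v r), ← hLJ (v s), update_eq_comp, update_eq_comp]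
  have h0 : ((ω l : MultilinearMap ℂ (fun _ : Fin m => H1 A n) ℂ).compLinearMap
        (Function.update (fun _ => LinearMap.id) r L)) =
      ((ω l : MultilinearMap ℂ (fun _ : Fin m => H1 A n) ℂ).compLinearMap
        (Function.update (fun _ => LinearMap.id) s L)) := by
    apply Basis.ext_multilinear (fun _ => FBP n (fun i => pData (A i)))
    intro t
    set u : Fin m → H1 A n := fun i => FBP n (fun i => pData (A i)) (t i) with hu
    rw [← update_eq_comp, ← update_eq_comp]
    have hub : ∀ i, IsBetti A n (u i) := fun i => isBetti_FBP A n _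
    have hval : ∀ (l : Fin N) (r : Fin m), ∃ q : ℚ,
        ω l (Function.update u r (L (u r))) = κ * q := by
      intro l r
      refine rat_of_basis (FBP n (fun i => pData (A i))) κ
        (ω l : MultilinearMap ℂ (fun _ : Fin m => H1 A n) ℂ) (hω l) _ ?_
      intro i b
      refine repr_rat_of_isBetti A n _ ?_ b
      by_cases h : i = r
      · subst h
        rw [Function.update_self]
        exact hJb _ (hub i)
      · rw [Function.update_of_ne h]
        exact hub i
    have h2 := eq_zero_of_indep c hc κ hκ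
      (fun l => ω l (Function.update u r (L (u r))) - ω l (Function.update u s (L (u s))))
      (fun l => by
        obtain ⟨a, ha⟩ := hval l r
        obtain ⟨b, hb⟩ := hval l s
        refine ⟨a - b, ?_⟩
        rw [ha, hb]; push_cast; ring) (by
        have h3 := hw u r s
        rw [← hLJ (u r), ← hLJ (u s), hsum, alt_sum_apply, alt_sum_apply] at h3
        simp only [AlternatingMap.smul_apply, smul_eq_mul] at h3
        simp only [mul_sub, Finset.sum_sub_distrib]
        rw [h3, sub_self]) l
    exact sub_eq_zero.mp h2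
  rw [h0]

/-- the generators of the space of divisorial classes -/
def divGen [DecidableEq I] (k : ℕ) : Set (Form A n (2 * k)) :=
  {w | ∃ γ : Fin k → (H1 A n →ₗ[ℂ] H1 A n →ₗ[ℂ] ℂ),
    (∀ a, γ a ∈ GW n (fun i => pData (A i))) ∧ w = wedge γ}

/-- forms of Weil type with complex values -/
def weilGen (k : ℕ) : Set (Form A n (2 * k)) :=
  {w | (k = 2 ∧ ∑ i, n i * (A i).g = 4) ∧ ∃ (d : ℚ) (J : H1 A n → H1 A n),
    IsWeilStructure A n d J ∧
      ∀ v r s, w (Function.update v r (J (v r))) = w (Function.update v s (J (v s)))}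

/-- rational descent for divisorial and Weil classes -/
theorem isDivisorialWeil_of_span [DecidableEq I] (k : ℕ) (α : Form A n (2 * k)) (hα : IsGrothendieck A n k α)
    (h : α ∈ Submodule.span ℂ ({w : Form A n (2 * k) |
        ∃ γ : Fin k → (H1 A n →ₗ[ℂ] H1 A n →ₗ[ℂ] ℂ),
          (∀ a, γ a ∈ GW n (fun i => pData (A i))) ∧ w = wedge γ} ∪
      {w : Form A n (2 * k) | (k = 2 ∧ ∑ i, n i * (A i).g = 4) ∧
        ∃ (d : ℚ) (J : H1 A n → H1 A n), IsWeilStructure A n d J ∧
        ∀ v r s, w (Function.update v r (J (v r))) = w (Function.update v s (J (v s)))})) :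
    IsDivisorialWeil A n k α := by
  classical
  have hϖ : ((2 : ℂ) * Real.pi * Complex.I) ^ k ≠ 0 := pow_ne_zero _ Complex.two_pi_I_ne_zero
  -- rational classes of Weil type
  have h1 : α ∈ Submodule.span ℂ (divGen A n k ∪ {w | IsWeilClass A n k w}) := by
    refine (Submodule.span_le.mpr ?_) h
    rintro w (hw | ⟨hk, d, J, hJ, hw⟩)
    · exact Submodule.subset_span (Or.inl hw)
    · obtain ⟨N, c, ω, hω, hωJ, hsum⟩ := weil_decomp A n _ hϖ J hJ.2.1.linear hJ.2.1.betti w hw
      rw [hsum]
      refine Submodule.sum_mem _ fun l _ => Submodule.smul_mem _ _ (Submodule.subset_span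
        (Or.inr ⟨hk, fun v hv => ?_, d, J, hJ, hωJ l⟩))
      exact rat_of_basis (FBP n (fun i => pData (A i))) _
        (ω l : MultilinearMap ℂ (fun _ : Fin (2 * k) => H1 A n) ℂ) (hω l) v
        (fun r b => repr_rat_of_isBetti A n _ (hv r) b)
  have h2 : α ∈ Submodule.span ℚ (divGen A n k ∪ {w | IsWeilClass A n k w}) := by
    refine rational_descent (FBP n (fun i => pData (A i))) _ hϖ _ ?_ α
      (fun s => hα.2 _ (fun r => isBetti_FBP A n _)) h1
    rintro w (⟨γ, hγ, rfl⟩ | hw) s
    · exact wedge_rational' n (fun i => pData (A i)) γ hγ _ (fun r => FBP_isRatP n _ _)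
    · exact hw.2.1 _ (fun r => isBetti_FBP A n _)
  rw [Submodule.span_union, Submodule.mem_sup] at h2
  obtain ⟨x, hx, y, hy, rfl⟩ := h2
  rw [Submodule.mem_span_set'] at hy
  obtain ⟨m, c, ω, hω⟩ := hy
  refine ⟨m, fun r => c r • (ω r : Form A n (2 * k)), fun r => ?_, ?_⟩
  · obtain ⟨hk, hb, d, J, hJ, hw⟩ := (ω r).2
    refine ⟨hk, fun v hv => ?_, d, J, hJ, fun v s t => ?_⟩
    · obtain ⟨q, hq⟩ := hb v hv
      refine ⟨c r * q, ?_⟩
      rw [AlternatingMap.smul_apply, hq, Algebra.smul_def, eq_ratCast]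
      push_cast
      ring
    · rw [AlternatingMap.smul_apply, AlternatingMap.smul_apply, hw v s t]
  · have h3 : x + y - ∑ r, c r • (ω r : Form A n (2 * k)) = x := by
      rw [← hω]
      abel
    rw [h3]
    exact isDivisorial_of_span A n k x hx

end family

end Pool.Agent.Helper28
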