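import Pool.Agent.Helper28.AF.NotScalar
import Pool.Agent.Helper8.TPrime

/-!
Grothendieck classes on abelian varieties of dimension four with complex multiplication are sums of
divisorial classes and of Weil classes.
-/

namespace Pool.Agent.Helper28.AF

open Module NumberField

open Pool.Agent.GPC Pool.Agent.Helper7
open Pool.Agent.Helper84 (xi act)
open Pool.Agent.Helper8 (PS mem_of_PS)

set_option linter.unusedSectionVars false

section span

variable {I : Type} [Fintype I] [DecidableEq I] (n : I → ℕ)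
  {κ : I → Type} [∀ i, Fintype (κ i)] [∀ i, DecidableEq (κ i)] {ϖ : ℂ}
  (P : ∀ i, PData (κ i) ϖ)
  {K : I → Type} [∀ i, Field (K i)] [∀ i, NumberField (K i)]
  (F : ∀ i, FS (P i) (K i))
  {k : ℕ} (α : (HW κ n) [⋀^Fin (2 * k)]→ₗ[ℂ] ℂ)

include F in
/-- alternatization of products of invariant pairings -/
lemma alt_mem_of_span (hϖ : ϖ ≠ 0)
    (hB : ∀ v : Fin (2 * k) → HW κ n, (∀ r, IsRatP n P (v r)) → ∃ q : ℚ, α v = ϖ ^ k * q)
    (hA : ∀ v : Fin (2 * k) → HW κ n, (∀ r i m j, IsAlgebraic ℚ (v r i m j)) →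
      IsAlgebraic ℚ (α v))
    (M : MultilinearMap ℂ (fun _ : Fin (2 * k) => HW κ n) ℂ)
    (hM : M ∈ Submodule.span ℂ
      {M | ∃ (π : Equiv.Perm (Fin (2 * k))) (β : Fin k → (HW κ n →ₗ[ℂ] HW κ n →ₗ[ℂ] ℂ)),
      (∀ a, β a ∈ invB n P (toM' n α)) ∧ M = (prodBilin β).domDomCongr π}) :
    MultilinearMap.alternatization M ∈ Submodule.span ℂ
      {ω | ∃ γ : Fin k → (HW κ n →ₗ[ℂ] HW κ n →ₗ[ℂ] ℂ), (∀ a, γ a ∈ GW n P) ∧ ω = wedge γ} := by
  induction hM using Submodule.span_induction with
  | mem M hM =>
    obtain ⟨π, β, hβ, rfl⟩ := hM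
    rw [alternatization_domDomCongr]
    have h4 : wedge β ∈ Submodule.span ℂ
      {ω | ∃ γ : Fin k → (HW κ n →ₗ[ℂ] HW κ n →ₗ[ℂ] ℂ),
      (∀ a, γ a ∈ GW n P) ∧ ω = wedge γ} :=
      wedge_mem_span (GW n P) β (fun a => inv_mem_GW n P _ hϖ hB hA _ (hβ a))
    rcases Int.units_eq_one_or (Equiv.Perm.sign π) with h | h
    · rw [h, one_smul]; exact h4
    · rw [h, Units.neg_smul, one_smul]; exact Submodule.neg_mem _ h4
  | zero => rw [map_zero]; exact Submodule.zero_mem _
  | add x y _ _ hx hy => rw [map_add]; exact Submodule.add_mem _ hx hy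
  | smul c x _ hx => rw [alternatization_smul]; exact Submodule.smul_mem _ _ hx

/-- the multilinear component at a label -/
noncomputable def compM (a : Fin (2 * k) → At n K) :
    MultilinearMap ℂ (fun _ : Fin (2 * k) => HW κ n) ℂ :=
  (toM' n α).compLinearMap (fun r => EE n P F (a r))

lemma compM_apply (a : Fin (2 * k) → At n K) (v : Fin (2 * k) → HW κ n) :
    compM n P F α a v = α (fun r => EE n P F (a r) (v r)) := rfl

/-- reduction to the components -/
lemma mem_of_comp (S : Submodule ℂ ((HW κ n) [⋀^Fin (2 * k)]→ₗ[ℂ] ℂ))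
    (h : ∀ a, MultilinearMap.alternatization (compM n P F α a) ∈ S) : α ∈ S := by
  classical
  have h1 : toM' n α = ∑ a : Fin (2 * k) → At n K, compM n P F α a := by
    refine MultilinearMap.ext fun v => ?_
    rw [MultilinearMap.sum_apply]
    exact Pool.Agent.Helper8.sum_labels α v
  have h2 : MultilinearMap.alternatization (toM' n α) ∈ S := by
    rw [h1, map_sum]
    exact Submodule.sum_mem _ fun a _ => h a
  rw [AlternatingMap.coe_alternatization, ← Nat.cast_smul_eq_nsmul ℂ] at h2
  have h3 := Submodule.smul_mem _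
    (((Nat.factorial (Fintype.card (Fin (2 * k)))) : ℂ)⁻¹) h2
  rw [smul_smul, inv_mul_cancel₀ (Nat.cast_ne_zero.mpr (Nat.factorial_ne_zero _)),
    one_smul] at h3
  exact h3

end span

lemma proj_rho {V : Type*} [AddCommGroup V] [Module ℂ V] {L : Type*} [Field L] [NumberField L]
    (ρ : L →+* Module.End ℂ V) (σ : L →+* ℂ) (x : L) (v : V) :
    proj ρ σ (ρ x v) = σ x • proj ρ σ v := by
  have h1 : proj ρ σ * ρ x = ρ x * proj ρ σ := by
    unfold proj
    rw [Finset.sum_mul, Finset.mul_sum]
    refine Finset.sum_congr rfl fun b _ => ?_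
    rw [smul_mul_assoc, mul_smul_comm, ← map_mul, ← map_mul, mul_comm]
  have h2 := congrArg (fun f : Module.End ℂ V => f v) (h1.trans (rho_mul_proj ρ x σ))
  exact h2

/-- complex multiplication in dimension four -/
theorem cm_four {I : Type} [Fintype I] (A : I → AbVar) (n : I → ℕ) (K : I → Type)
    [∀ i, Field (K i)] [∀ i, NumberField (K i)]
    (hC : ∀ i, IsCMType (A i) (K i)) (hs : ∀ i, (A i).IsSimple)
    (hA : ∀ i j, i ≠ j → ∀ f, (A i).IsMor (A j) f → ∀ v, f v = 0) (hn : ∀ i, n i ≠ 0)
    (hd : ∑ i, n i * (A i).g = 4) (k : ℕ) (α : Form A n (2 * k))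
    (hα : IsGrothendieck A n k α) : IsDivisorialWeil A n k α := by
  classical
  have hT : ∀ i, NotProportional (A i) := fun i l hl hl0 =>
    (A i).periods_not_proportional l hl hl0
  have hcm : ∀ i, IsCMField (K i) := fun i => (hC i).choose
  obtain ⟨C, -⟩ : ∃ _ : ∀ i, CM (A i) (K i), True :=
    ⟨fun i => Classical.choice (hC i).choose_spec, trivial⟩
  obtain ⟨F, hF⟩ : ∃ F : ∀ i, FS (pData (A i)) (K i), ∀ i, F i =
    .inr ⟨cmFac (A i) (K i) (C i) (hT i), fun h => h⟩ := ⟨_, fun _ => rfl⟩
  have hall : ∀ i, ¬ (F i).isLeft := fun i h => by rw [hF] at h; simp at h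
  have hρ : ∀ i, (F i).ρ = cmRho (C i) := fun i => by rw [hF]; rfl
  obtain ⟨hα1, hα2⟩ := hα
  have hdeg : ∀ i, finrank ℚ (K i) = 2 * (A i).g := fun i => (C i).degree
  have hd8 : ∑ i, n i * finrank ℚ (K i) = 8 := by
    rw [Finset.sum_congr rfl fun i _ => by rw [hdeg i]]
    have h1 : ∑ i, n i * (2 * (A i).g) = 2 * ∑ i, n i * (A i).g := by
      rw [Finset.mul_sum]
      exact Finset.sum_congr rfl fun i _ => by ring
    rw [h1, hd]
  have hB : ∀ v : Fin (2 * k) → HW (fun i => Fin (A i).g ⊕ Fin (A i).g) n,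
      (∀ r, IsRatP n (fun i => pData (A i)) (v r)) →
      ∃ q : ℚ, α v = (2 * Real.pi * Complex.I) ^ k * q := by
    intro v hv
    apply hα2
    intro r i m
    exact (mem_pData_Q _ _).mp (hv r i m)
  have h2 : ∀ s t : Emb K, (fun u => xi s u + xi t u) ∈
      relS n (fun i => pData (A i)) F (toM' n α) → t = conjT s := by
    intro s s' hrel
    refine eq_of_relS n (fun i => pData (A i)) F _ Complex.two_pi_I_ne_zero hB hα1 s s'
      (hall _) (hall _) ?_ ?_ hrel
    · intro f hf
      refine (F s.1).simple_rho (hall _) ?_ f hf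
      intro g hg hg0
      exact hs s.1 g (isEnd_of_isDRB (A s.1) g hg) hg0
    · intro hne f hf v
      have h1 := (isDRB_iff (A s.1) (A s'.1) f).mp hf
      exact hA s.1 s'.1 hne f
        ⟨f.isLinear, h1.1, h1.2, hom_fil (A s.1) (A s'.1) f f.isLinear h1.1 h1.2⟩ v
  refine isDivisorialWeil_of_span A n k α ⟨hα1, hα2⟩ (mem_of_comp n (fun i => pData (A i)) F α _
    fun a => ?_)
  rw [Submodule.span_union]
  rcases label_dich n (fun i => pData (A i)) F α hall hn (by rw [hd8]) h2 a with h | h
  · refine Submodule.mem_sup_left (alt_mem_of_span n (fun i => pData (A i)) F α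
      Complex.two_pi_I_ne_zero hB hα1 _ (mem_of_PS _ h))
  · obtain ⟨hk2, -, z, hzU, hzabs, hsgn, hza⟩ := h
    refine Submodule.mem_sup_right (Submodule.subset_span ⟨⟨hk2, hd⟩, ?_⟩)
    obtain ⟨i₀⟩ : Nonempty I := by
      by_contra hI
      rw [not_nonempty_iff] at hI
      rw [Finset.univ_eq_empty, Finset.sum_empty] at hd
      exact absurd hd (by norm_num)
    have hU : IsOddModule K (relS n (fun i => pData (A i)) F (toM' n α)) :=
      relS_odd n (fun i => pData (A i)) F (toM' n α) (fun i hi => absurd hi (hall i))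
    have hnQ : ∀ i, (n i : ℚ) ≠ 0 := fun i => Nat.cast_ne_zero.mpr (hn i)
    have hzodd : ∀ i (σ : K i →+* ℂ), z ⟨i, ComplexEmbedding.conjugate σ⟩ = - z ⟨i, σ⟩ := by
      intro i σ
      have h1 := (hU _ hzU).1 i σ
      simp only at h1
      exact_mod_cast h1
    obtain ⟨x, d, c, hd0, hx, hcc, hσ⟩ := Pool.Agent.Helper24.exists_quad i₀ K
      (fun t => (z t : ℚ) / n t.1) (fun t => by
        have h1 := hzabs t
        have h3 : (z t : ℚ) ^ 2 = (n t.1 : ℚ) ^ 2 := by
          have h4 : z t ^ 2 = (n t.1 : ℤ) ^ 2 := by rw [← h1, sq_abs]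
          exact_mod_cast h4
        rw [div_pow, h3, div_self (pow_ne_zero _ (hnQ _))])
      (fun i σ => by
        simp only
        rw [hzodd]
        push_cast
        ring)
      (fun g => by
        rcases hsgn g with h | h
        · refine ⟨1, by norm_num, fun i σ => ?_⟩
          have h1 := h ⟨i, σ⟩
          simp only
          rw [one_mul]
          congr 1
          exact_mod_cast h1
        · refine ⟨-1, by norm_num, fun i σ => ?_⟩
          have h1 := h ⟨i, σ⟩
          simp only
          have h3 : (z ⟨i, (g : ℂ →+* ℂ).comp σ⟩ : ℚ) = - (z ⟨i, σ⟩ : ℚ) := by exact_mod_cast h1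
          rw [h3]
          ring)
    have hconj : ∀ i, cmConj (K i) (x i) = - x i := by
      intro i
      obtain ⟨σ⟩ : Nonempty (K i →+* ℂ) := inferInstance
      apply σ.injective
      have h1 : σ (cmConj (K i) (x i)) = starRingEnd ℂ (σ (x i)) :=
        IsCMField.complexEmbedding_complexConj (K i) σ (x i)
      rw [h1, ← ComplexEmbedding.conjugate_coe_eq, hσ, map_neg, hσ]
      simp only
      rw [hzodd]
      push_cast
      ring
    have hz0 : ∀ t, z t ≠ 0 := by
      intro t h0
      have h1 := hzabs t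
      rw [h0, abs_zero] at h1
      exact hn t.1 (by exact_mod_cast h1.symm)
    refine ⟨d, famJ A n K C x, ⟨hd0, famJ_endo A n K C x, fun v => ?_, ?_, Or.inl fun f hf v =>
      famJ_comm A n K C hT hs hA x f hf v⟩, ?_⟩
    · funext i m
      exact cm_sq A K C i (x i) d (hx i) (v i m)
    · exact not_scalar A n K C i₀ hs hA hn x d hd0 hx hconj _ hU
        (fun i => relS_ne n (fun i => pData (A i)) F (toM' n α) Complex.two_pi_I_ne_zero hB hα1 i
          (hall i)) z hzU hz0
    · have hMJ : ∀ v r, compM n (fun i => pData (A i)) F α a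
          (Function.update v r (famJ A n K C x (v r))) =
          c * compM n (fun i => pData (A i)) F α a v := by
        intro v r
        rw [compM_apply, compM_apply]
        have hE : EE n (fun i => pData (A i)) F (a r) (famJ A n K C x (v r)) =
            c • EE n (fun i => pData (A i)) F (a r) (v r) := by
          rw [EE_apply, EE_apply]
          have h1 : famJ A n K C x (v r) (a r).1 (a r).2.1 =
              (F (a r).1).ρ (x (a r).1) (v r (a r).1 (a r).2.1) := by
            rw [hρ]; rfl
          rw [h1, proj_rho, map_smul]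
          congr 1
          rw [hσ]
          have h3 := hza r
          have h4 : (z ⟨(a r).1, (a r).2.2⟩ : ℚ) = n (a r).1 := by exact_mod_cast h3
          simp only
          rw [h4, div_self (hnQ _), Rat.cast_one, mul_one]
        have h1 : (fun s => EE n (fun i => pData (A i)) F (a s)
            (Function.update v r (famJ A n K C x (v r)) s)) =
            Function.update (fun s => EE n (fun i => pData (A i)) F (a s) (v s)) r
              (c • EE n (fun i => pData (A i)) F (a r) (v r)) := by
          funext s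
          by_cases hsr : s = r
          · subst hsr
            rw [Function.update_self, Function.update_self, hE]
          · rw [Function.update_of_ne hsr, Function.update_of_ne hsr]
        rw [h1, AlternatingMap.map_update_smul, smul_eq_mul]
        congr 2
        exact Function.update_eq_self r _
      intro v r s
      rw [alt_update _ _ c hMJ, alt_update _ _ c hMJ]

end Pool.Agent.Helper28.AF
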