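import Pool.Agent.Helper7.LowZero

/-!
The exceptional relations between the weights in small dimension.
-/

namespace Pool.Agent.Helper28.AF

open NumberField Pool.Agent.GPC Pool.Agent.Helper7.WM
open Pool.Agent.Helper84 (xi conjT conjT_conjT xi_odd xi_conj_left xi_conj_right act cc_ne act_cc
  cc_cc act_star mem_range_of_fixed rational_of_fixed isAlgebraic_emb exists_perm_pair sum_perm)

variable {I : Type} {L : I → Type} [∀ i, Field (L i)] [Fintype I] [∀ i, NumberField (L i)]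

variable (n : I → ℕ) {U : Submodule ℚ (Emb L → ℚ)}

/-- An integral relation with `|z(s)| ≤ n(s)` whose weight is divisible by `4` vanishes, or
`|z(s)| = n(s)` for all `s` and the relation is stable up to sign. -/
theorem low_dich (hcm : ∀ i, n i ≠ 0 → IsCMField (L i))
    (hdim : ∑ i, n i * Module.finrank ℚ (L i) ≤ 8) (hU : IsOddModule L U)
    (h2 : ∀ s t : Emb L, n s.1 ≠ 0 → n t.1 ≠ 0 → (fun u => xi s u + xi t u) ∈ U → t = conjT s)
    (z : Emb L → ℤ) (hzU : (fun s => (z s : ℚ)) ∈ U) (hzn : ∀ s, |z s| ≤ n s.1)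
    (h4 : ∃ m : ℤ, ∑ s, |z s| = 4 * m) : (∀ s, z s = 0) ∨
      (∑ i, n i * Module.finrank ℚ (L i) = 8 ∧ (∀ s, |z s| = n s.1) ∧
        ∀ τ : ℂ ≃+* ℂ, (∀ s : Emb L, z ⟨s.1, act τ s.2⟩ = z s) ∨
          (∀ s : Emb L, z ⟨s.1, act τ s.2⟩ = - z s)) := by
  classical
  have hcc : ∀ s : Emb L, n s.1 ≠ 0 → conjT s ≠ s := by
    rintro ⟨i, σ⟩ hi h
    have := hcm i hi
    have h1 : (⟨i, ComplexEmbedding.conjugate σ⟩ : Emb L) = ⟨i, σ⟩ := h
    rw [Sigma.mk.injEq] at h1
    exact cc_ne σ (eq_of_heq h1.2)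
  have hzodd : ∀ s, z (conjT s) = - z s := by
    intro s
    have h1 := (hU _ hzU).1 s.1 s.2
    simp only at h1
    exact_mod_cast h1
  have hz0 : ∀ s : Emb L, n s.1 = 0 → z s = 0 := by
    intro s hs
    have h1 := hzn s
    rw [hs] at h1
    exact abs_eq_zero.mp (le_antisymm (by exact_mod_cast h1) (abs_nonneg _))
  have hsum2 := sum_n (L := L) n
  have hle : ∑ s, |z s| ≤ ∑ s : Emb L, (n s.1 : ℤ) := Finset.sum_le_sum fun s _ => hzn s
  have hcast : ∑ s : Emb L, (n s.1 : ℤ) = ((∑ i, n i * Module.finrank ℚ (L i) : ℕ) : ℤ) := by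
    rw [← hsum2]; push_cast; rfl
  have h8 : ∑ s, |z s| ≤ 8 := by
    rw [hcast] at hle
    omega
  by_cases hsm : ∑ s, |z s| ≤ 4
  · exact Or.inl (small_zero n h2 hcc z hzU hzodd hz0 hsm)
  right
  obtain ⟨m, hm⟩ := h4
  have hz8 : ∑ s, |z s| = 8 := by omega
  have hn8 : ∑ i, n i * Module.finrank ℚ (L i) = 8 := by
    rw [hcast] at hle
    omega
  have hn8' : ∑ s : Emb L, (n s.1 : ℤ) = 8 := by rw [hcast, hn8]; rfl
  have hzabs' : ∀ s, |z s| = n s.1 := by
    intro s
    exact (Finset.sum_eq_sum_iff_of_le fun s _ => hzn s).mp (by rw [hz8, hn8']) s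
      (Finset.mem_univ s)
  have hzabs : ∀ s, z s = n s.1 ∨ z s = - (n s.1 : ℤ) := by
    intro s
    have h1 := hzabs' s
    rcases abs_cases (z s) with ⟨h, _⟩ | ⟨h, _⟩ <;> omega
  have hsign : ∀ τ : ℂ ≃+* ℂ, (∀ s : Emb L, z ⟨s.1, act τ s.2⟩ = z s) ∨
      (∀ s : Emb L, z ⟨s.1, act τ s.2⟩ = - z s) := by
    intro τ
    have hwU := (hU _ hzU).2 τ
    rw [translate_cast] at hwU
    have hoddw : ∀ s, z ⟨(conjT s).1, act τ (conjT s).2⟩ = - z ⟨s.1, act τ s.2⟩ := by
      intro s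
      have h1 := (hU _ hwU).1 s.1 s.2
      simp only at h1
      exact_mod_cast h1
    obtain ⟨A, hA⟩ : ∃ A : Emb L → ℤ, ∀ s, A s = if z ⟨s.1, act τ s.2⟩ = z s then z s else 0 :=
      ⟨_, fun _ => rfl⟩
    obtain ⟨B, hB⟩ : ∃ B : Emb L → ℤ, ∀ s, B s = if z ⟨s.1, act τ s.2⟩ = z s then 0 else z s :=
      ⟨_, fun _ => rfl⟩
    have hw : ∀ s, z ⟨s.1, act τ s.2⟩ = z s ∨ z ⟨s.1, act τ s.2⟩ = - z s := by
      intro s
      have h1 := hzabs s
      have h2 := hzabs ⟨s.1, act τ s.2⟩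
      simp only at h2
      omega
    have hA2 : ∀ s, z s + z ⟨s.1, act τ s.2⟩ = 2 * A s := by
      intro s
      rw [hA]
      rcases hw s with h | h
      · rw [if_pos h, h]; ring
      · split_ifs with h'
        · rw [h']; ring
        · rw [h]; ring
    have hB2 : ∀ s, z s - z ⟨s.1, act τ s.2⟩ = 2 * B s := by
      intro s
      rw [hB]
      rcases hw s with h | h
      · rw [if_pos h, h]; ring
      · split_ifs with h'
        · rw [h']; ring
        · rw [h]; ring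
    have hAU : (fun s => (A s : ℚ)) ∈ U := by
      have h1 : (fun s => (A s : ℚ)) = (1 / 2 : ℚ) • ((fun s => (z s : ℚ)) +
          fun s : Emb L => ((z ⟨s.1, act τ s.2⟩ : ℤ) : ℚ)) := by
        funext s
        have h3 : ((z s : ℤ) : ℚ) + (z ⟨s.1, act τ s.2⟩ : ℤ) = 2 * (A s : ℤ) := by
          exact_mod_cast hA2 s
        rw [Pi.smul_apply, Pi.add_apply, smul_eq_mul, h3]; ring
      rw [h1]
      exact U.smul_mem _ (U.add_mem hzU hwU)
    have hBU : (fun s => (B s : ℚ)) ∈ U := by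
      have h1 : (fun s => (B s : ℚ)) = (1 / 2 : ℚ) • ((fun s => (z s : ℚ)) -
          fun s : Emb L => ((z ⟨s.1, act τ s.2⟩ : ℤ) : ℚ)) := by
        funext s
        have h3 : ((z s : ℤ) : ℚ) - (z ⟨s.1, act τ s.2⟩ : ℤ) = 2 * (B s : ℤ) := by
          exact_mod_cast hB2 s
        rw [Pi.smul_apply, Pi.sub_apply, smul_eq_mul, h3]; ring
      rw [h1]
      exact U.smul_mem _ (U.sub_mem hzU hwU)
    have hAodd : ∀ s, A (conjT s) = - A s := by
      intro s
      have h1 := hA2 s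
      have h2 := hA2 (conjT s)
      rw [hoddw s, hzodd s] at h2
      omega
    have hBodd : ∀ s, B (conjT s) = - B s := by
      intro s
      have h1 := hB2 s
      have h2 := hB2 (conjT s)
      rw [hoddw s, hzodd s] at h2
      omega
    have habs : ∀ s, |A s| + |B s| = n s.1 := by
      intro s
      rw [hA, hB]
      split_ifs
      · rw [abs_zero, add_zero, hzabs']
      · rw [abs_zero, zero_add, hzabs']
    have hsumAB : ∑ s, |A s| + ∑ s, |B s| = 8 := by
      rw [← Finset.sum_add_distrib, Finset.sum_congr rfl fun s _ => habs s, hn8']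
    have hA0 : ∀ s : Emb L, n s.1 = 0 → A s = 0 := by
      intro s hs
      rw [hA, hz0 s hs]; simp
    have hB0 : ∀ s : Emb L, n s.1 = 0 → B s = 0 := by
      intro s hs
      rw [hB, hz0 s hs]; simp
    rcases (show ∑ s, |A s| ≤ 4 ∨ ∑ s, |B s| ≤ 4 by omega) with h | h
    · right
      have h1 := small_zero n h2 hcc A hAU hAodd hA0 h
      intro s
      have h3 := hA2 s
      rw [h1 s] at h3
      omega
    · left
      have h1 := small_zero n h2 hcc B hBU hBodd hB0 h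
      intro s
      have h3 := hB2 s
      rw [h1 s] at h3
      omega
  exact ⟨hn8, hzabs', hsign⟩

end Pool.Agent.Helper28.AF
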