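import Pool.Agent.Helper28.GPC.SmallK
import Pool.Agent.Helper28.AF.LowDich
import Pool.Agent.Helper7.L9

/-!
Components of an invariant form for a family of CM type of dimension at most four.
-/

namespace Pool.Agent.Helper28.AF

open Module NumberField LieAlgebra

attribute [local instance 100] LieRing.ofAssociativeRing

open Pool.Agent.GPC Pool.Agent.Helper7
open Pool.Agent.Helper84 (xi act)
open Pool.Agent.Helper8 (PS SF symG mem_of_PS)

set_option linter.unusedSectionVars false

section family

variable {I : Type} [Fintype I] [DecidableEq I] (n : I → ℕ)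
  {κ : I → Type} [∀ i, Fintype (κ i)] [∀ i, DecidableEq (κ i)] {ϖ : ℂ}
  (P : ∀ i, PData (κ i) ϖ)
  {K : I → Type} [∀ i, Field (K i)] [∀ i, NumberField (K i)]
  (F : ∀ i, FS (P i) (K i))
  {k : ℕ} (α : (HW κ n) [⋀^Fin (2 * k)]→ₗ[ℂ] ℂ)
  (hall : ∀ i, ¬ (F i).isLeft)

omit [Fintype I] [DecidableEq I] in
lemma conjT_ne_self [∀ i, IsCMField (K i)] (t : Emb K) : conjT t ≠ t := by
  rintro h
  obtain ⟨i, σ⟩ := t
  have h1 : (⟨i, ComplexEmbedding.conjugate σ⟩ : Emb K) = ⟨i, σ⟩ := h
  rw [Sigma.mk.injEq] at h1
  exact Helper84.cc_ne σ (eq_of_heq h1.2)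

include hall

/-- the component at a label -/
lemma comp_eq (a : Fin (2 * k) → At n K) (v : Fin (2 * k) → HW κ n) :
    α (fun r => EE n P F (a r) (v r)) =
      α (fun r => evS n P F (a r)) * ∏ r, cvS n P F (a r) (v r) := by
  have h1 : (fun r => EE n P F (a r) (v r)) =
      fun r => cvS n P F (a r) (v r) • evS n P F (a r) := by
    funext r
    exact EE_cm n P F (a r) (hall _) (v r)
  have h2 : α (fun r => cvS n P F (a r) (v r) • evS n P F (a r)) =
      (∏ r, cvS n P F (a r) (v r)) * α (fun r => evS n P F (a r)) :=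
    (α : MultilinearMap ℂ (fun _ : Fin (2 * k) => HW κ n) ℂ).map_smul_univ _ _
  rw [h1, h2, mul_comm]

/-- the weights of a label with non-zero component -/
lemma comp_weight (a : Fin (2 * k) → At n K) (h0 : α (fun r => evS n P F (a r)) ≠ 0) (X : GG κ)
    (hX : IsInv n P (toM' n α) X) : ∑ r, chiC P F (pl n (a r)) X = k * X.2 := by
  have h1 := congrArg (fun g => g (fun r => evS n P F (a r))) hX.form
  simp only [actForm_apply, _root_.smul_apply, smul_eq_mul] at h1
  have h2 : ∀ r, (toM' n α) (Function.update (fun r => evS n P F (a r)) r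
      (lift n X.1 (evS n P F (a r)))) =
      chiC P F (pl n (a r)) X * α (fun r => evS n P F (a r)) := by
    intro r
    rw [lift_evS n P F _ X hX (a r) (hall _)]
    show α _ = _
    rw [AlternatingMap.map_update_smul, smul_eq_mul]
    congr 2
    exact Function.update_eq_self r (fun r => evS n P F (a r))
  rw [Finset.sum_congr rfl fun r _ => h2 r, ← Finset.sum_mul] at h1
  exact mul_right_cancel₀ h0 h1

open Classical in
/-- matched labels -/
lemma matched_mem [∀ i, IsCMField (K i)] (a : Fin (2 * k) → At n K) :
    ∀ (N : ℕ) (T : Finset (Fin (2 * k))), T.card = N →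
      (∀ t, (T.filter fun r => pl n (a r) = t).card =
        (T.filter fun r => pl n (a r) = conjT t).card) →
      (fun v : Fin (2 * k) → HW κ n => ∏ r ∈ T, cvS n P F (a r) (v r)) ∈
        PS (invB n P (toM' n α)) T := by
  classical
  intro N
  induction N using Nat.strong_induction_on with
  | _ N ih =>
    intro T hT hcnt
    rcases T.eq_empty_or_nonempty with rfl | ⟨r, hr⟩
    · simp only [Finset.prod_empty]
      exact Submodule.subset_span PP.nil
    · have h1 : 0 < (T.filter fun r' => pl n (a r') = conjT (pl n (a r))).card := by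
        rw [← hcnt]
        exact Finset.card_pos.mpr ⟨r, Finset.mem_filter.mpr ⟨hr, rfl⟩⟩
      obtain ⟨r', hr'⟩ := Finset.card_pos.mp h1
      obtain ⟨hr'T, hr'c⟩ := Finset.mem_filter.mp hr'
      have hne' : pl n (a r') ≠ pl n (a r) := by
        rw [hr'c]; exact conjT_ne_self _
      have hne : r ≠ r' := by rintro rfl; exact hne' rfl
      obtain ⟨T', hT'⟩ : ∃ T', T' = (T.erase r).erase r' := ⟨_, rfl⟩
      have hrT' : r ∉ T' := by
        rw [hT', Finset.mem_erase, Finset.mem_erase]
        tauto
      have hr'T' : r' ∉ T' := by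
        rw [hT', Finset.mem_erase]
        tauto
      have hins : insert r (insert r' T') = T := by
        rw [hT', Finset.insert_erase (Finset.mem_erase.mpr ⟨hne.symm, hr'T⟩),
          Finset.insert_erase hr]
      have hcard : T.card = T'.card + 2 := by
        rw [← hins, Finset.card_insert_of_notMem (by
          rw [Finset.mem_insert]; tauto), Finset.card_insert_of_notMem hr'T']
      have hfil : ∀ t, (T.filter fun s => pl n (a s) = t).card =
          (T'.filter fun s => pl n (a s) = t).card + (if pl n (a r) = t then 1 else 0) +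
            (if pl n (a r') = t then 1 else 0) := by
        intro t
        have hf1 : ∀ (S : Finset (Fin (2 * k))) s, s ∉ S →
            ((insert s S).filter fun s => pl n (a s) = t).card =
            (S.filter fun s => pl n (a s) = t).card + (if pl n (a s) = t then 1 else 0) := by
          intro S s hs
          rw [Finset.filter_insert]
          split_ifs with h
          · rw [Finset.card_insert_of_notMem]
            intro h2
            exact hs (Finset.mem_filter.mp h2).1
          · rfl
        rw [← hins, hf1 _ r (by rw [Finset.mem_insert]; tauto), hf1 _ r' hr'T']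
        omega
      have hmem := ih T'.card (by omega) T' rfl (fun t => by
        have h2 := hcnt t
        rw [hfil, hfil, hr'c] at h2
        have e1 : (pl n (a r) = conjT t) ↔ (conjT (pl n (a r)) = t) :=
          ⟨fun h => by rw [h, conjT_conjT], fun h => by rw [← h, conjT_conjT]⟩
        have e2 : (conjT (pl n (a r)) = conjT t) ↔ (pl n (a r) = t) :=
          ⟨fun h => by rw [← conjT_conjT (pl n (a r)), h, conjT_conjT], fun h => by rw [h]⟩
        simp only [e1, e2] at h2
        omega)
      obtain ⟨β, hβ, hβe⟩ := cm_pair n P F (toM' n α) (a r) (a r') (hall _) (hall _)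
        (fun X hX => by
          rw [hr'c]
          exact chiC_conj n P F (toM' n α) _ X hX)
      have hpair : (fun v : Fin (2 * k) → HW κ n => β (v r) (v r')) ∈
          PS (invB n P (toM' n α)) (insert r (insert r' ∅) : Finset (Fin (2 * k))) := by
        have h2 := PP.cons r r' β hβ (PP.nil (𝓑 := invB n P (toM' n α)))
          (Finset.notMem_empty r) (Finset.notMem_empty r') hne
        have h3 : (fun v : Fin (2 * k) → HW κ n => β (v r) (v r')) =
            fun v => β (v r) (v r') * 1 := by
          funext v; rw [mul_one]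
        rw [h3]
        exact Submodule.subset_span h2
      have h2 := PS.mul hpair hmem (by
        rw [Finset.disjoint_insert_left, Finset.disjoint_insert_left]
        exact ⟨hrT', hr'T', Finset.disjoint_empty_left _⟩)
      have h3 : insert r (insert r' ∅) ∪ T' = T := by
        rw [Finset.insert_union, Finset.insert_union, Finset.empty_union, hins]
      rw [h3] at h2
      have h4 : (fun v : Fin (2 * k) → HW κ n => ∏ s ∈ T, cvS n P F (a s) (v s)) =
          fun v => β (v r) (v r') * ∏ s ∈ T', cvS n P F (a s) (v s) := by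
        funext v
        rw [← hins, Finset.prod_insert (by rw [Finset.mem_insert]; tauto),
          Finset.prod_insert hr'T', hβe, mul_assoc]
      rw [h4]
      exact h2

/-- the component at a label is a product of invariant pairings or exotic -/
theorem label_dich [∀ i, IsCMField (K i)] (hn : ∀ i, n i ≠ 0)
    (hdim : ∑ i, n i * finrank ℚ (K i) ≤ 8)
    (h2 : ∀ s t : Emb K, (fun u => xi s u + xi t u) ∈ relS n P F (toM' n α) → t = conjT s)
    (a : Fin (2 * k) → At n K) :
    (fun v : Fin (2 * k) → HW κ n => α (fun r => EE n P F (a r) (v r))) ∈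
      PS (invB n P (toM' n α)) (Finset.univ : Finset (Fin (2 * k))) ∨
    (k = 2 ∧ ∑ i, n i * finrank ℚ (K i) = 8 ∧ ∃ z : Emb K → ℤ,
      (fun t => (z t : ℚ)) ∈ relS n P F (toM' n α) ∧ (∀ s, |z s| = n s.1) ∧
      (∀ τ : ℂ ≃+* ℂ, (∀ s : Emb K, z ⟨s.1, act τ s.2⟩ = z s) ∨
        (∀ s : Emb K, z ⟨s.1, act τ s.2⟩ = - z s)) ∧
      ∀ r, z (pl n (a r)) = n (a r).1) := by
  classical
  have hcomp : (fun v : Fin (2 * k) → HW κ n => α (fun r => EE n P F (a r) (v r))) =
      α (fun r => evS n P F (a r)) • fun v => ∏ r, cvS n P F (a r) (v r) := by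
    funext v
    exact comp_eq n P F α hall a v
  by_cases h0 : α (fun r => evS n P F (a r)) = 0
  · left
    rw [hcomp, h0, zero_smul]
    exact Submodule.zero_mem _
  have hinj : Function.Injective a := by
    intro r s hrs
    by_contra hne
    apply h0
    exact α.map_eq_zero_of_eq _ (i := r) (j := s) (by simp only [hrs]) hne
  obtain ⟨c, hc⟩ : ∃ c : Emb K → ℕ, ∀ t, c t =
      (Finset.univ.filter (fun r => pl n (a r) = t)).card := ⟨_, fun _ => rfl⟩
  obtain ⟨z, hz⟩ : ∃ z : Emb K → ℤ, ∀ t, z t = (c t : ℤ) - c (conjT t) := ⟨_, fun _ => rfl⟩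
  have hcn : ∀ t : Emb K, c t ≤ n t.1 := by
    intro t
    rw [hc]
    have hsub : (Finset.univ.filter (fun r => pl n (a r) = t)).image a ⊆
        Finset.univ.image (fun m : Fin (n t.1) => (⟨t.1, m, t.2⟩ : At n K)) := by
      intro b hb
      obtain ⟨r, hr, rfl⟩ := Finset.mem_image.mp hb
      have h2 := (Finset.mem_filter.mp hr).2
      generalize a r = b at h2
      obtain ⟨i, m, σ⟩ := b
      subst h2
      exact Finset.mem_image.mpr ⟨m, Finset.mem_univ _, rfl⟩
    calc (Finset.univ.filter (fun r => pl n (a r) = t)).card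
        = ((Finset.univ.filter (fun r => pl n (a r) = t)).image a).card :=
          (Finset.card_image_of_injective _ hinj).symm
      _ ≤ _ := Finset.card_le_card hsub
      _ ≤ _ := Finset.card_image_le
      _ = n t.1 := by rw [Finset.card_univ, Fintype.card_fin]
  have hzn : ∀ t, |z t| ≤ n t.1 := by
    intro t
    have h2 := hcn t
    have h3 : c (conjT t) ≤ n t.1 := hcn (conjT t)
    rw [hz, abs_le]
    constructor <;> omega
  have hzU : (fun t => (z t : ℚ)) ∈ relS n P F (toM' n α) := by
    have h2 := count_mem_relS n P F (toM' n α) k (fun r => pl n (a r)) (fun X hX =>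
      comp_weight n P F α hall a h0 X hX)
    have h3 : (fun t => (z t : ℚ)) = fun t =>
        ((Finset.univ.filter (fun r => pl n (a r) = t)).card : ℚ) -
        (Finset.univ.filter (fun r => pl n (a r) = conjT t)).card := by
      funext t
      rw [hz, hc, hc]
      push_cast
      rfl
    rw [h3]
    exact h2
  have hU : IsOddModule K (relS n P F (toM' n α)) :=
    relS_odd n P F (toM' n α) (fun i hi => absurd hi (hall i))
  have e2 : ∀ t, |z t| = (c t : ℤ) + c (conjT t) - 2 * ((min (c t) (c (conjT t)) : ℕ) : ℤ) := by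
    intro t
    rw [hz]
    rcases le_total (c t) (c (conjT t)) with h | h
    · rw [min_eq_left h, abs_of_nonpos (by omega)]; ring
    · rw [min_eq_right h, abs_of_nonneg (by omega)]; ring
  obtain ⟨m1, hm1⟩ := even_sum_of_symm (Finset.univ : Finset (Emb K)) conjT conjT_conjT
    (fun _ _ => Finset.mem_univ _) (fun t _ => conjT_ne_self t)
    (fun t => ((min (c t) (c (conjT t)) : ℕ) : ℤ)) (fun t _ => by
      show ((min (c (conjT t)) (c (conjT (conjT t))) : ℕ) : ℤ) = _
      rw [conjT_conjT, min_comm])
  have e3 : ∑ t : Emb K, (c (conjT t) : ℤ) = ∑ t : Emb K, (c t : ℤ) := by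
    refine Finset.sum_nbij' conjT conjT (fun _ _ => Finset.mem_univ _)
      (fun _ _ => Finset.mem_univ _) (fun t _ => conjT_conjT t)
      (fun t _ => conjT_conjT t) (fun t _ => rfl)
  have e4 : ∑ t : Emb K, (c t : ℤ) = 2 * k := by
    have h2 : ∑ t : Emb K, c t = (Finset.univ : Finset (Fin (2 * k))).card := by
      rw [Finset.card_eq_sum_card_fiberwise (f := fun r => pl n (a r)) (t := Finset.univ)
        (fun r _ => Finset.mem_coe.mpr (Finset.mem_univ _))]
      exact Finset.sum_congr rfl fun t _ => hc t
    rw [Finset.card_univ, Fintype.card_fin] at h2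
    rw [← Nat.cast_sum, h2]
    push_cast
    ring
  have hsum : ∑ t, |z t| = 4 * (k - m1) := by
    rw [Finset.sum_congr rfl fun t _ => e2 t, Finset.sum_sub_distrib,
      Finset.sum_add_distrib, ← Finset.mul_sum, e3, e4, hm1]
    ring
  rcases low_dich n (fun i _ => inferInstance) hdim hU (fun s t _ _ h => h2 s t h) z hzU hzn
    ⟨_, hsum⟩ with h | ⟨h8, habs, hsgn⟩
  · left
    rw [hcomp]
    refine Submodule.smul_mem _ _ (matched_mem n P F α hall a _ Finset.univ rfl fun t => ?_)
    have h3 := h t
    rw [hz] at h3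
    rw [← hc, ← hc]
    omega
  · right
    have hmin : ∀ t, min (c t) (c (conjT t)) = 0 := by
      intro t
      have h3 := habs t
      have h4 := hcn t
      have h5 : c (conjT t) ≤ n t.1 := hcn (conjT t)
      have h6 := e2 t
      rcases le_total (c t) (c (conjT t)) with h | h
      · rw [min_eq_left h] at h6 ⊢
        omega
      · rw [min_eq_right h] at h6 ⊢
        omega
    have hm0 : m1 = 0 := by
      have h3 : ∑ t : Emb K, ((min (c t) (c (conjT t)) : ℕ) : ℤ) = 0 :=
        Finset.sum_eq_zero fun t _ => by rw [hmin t]; rfl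
      rw [h3] at hm1
      omega
    have hn8 : ∑ t : Emb K, |z t| = 8 := by
      rw [Finset.sum_congr rfl fun t _ => habs t]
      have h3 := Pool.Agent.Helper7.WM.sum_n (L := K) n
      have h4 : ∑ t : Emb K, (n t.1 : ℤ) = ((∑ t : Emb K, n t.1 : ℕ) : ℤ) := by push_cast; rfl
      rw [h4, h3, h8]
      rfl
    refine ⟨by omega, h8, z, hzU, habs, hsgn, fun r => ?_⟩
    have h3 : 0 < c (pl n (a r)) := by
      rw [hc]
      exact Finset.card_pos.mpr ⟨r, Finset.mem_filter.mpr ⟨Finset.mem_univ _, rfl⟩⟩
    have h4 := hmin (pl n (a r))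
    have h5 : c (conjT (pl n (a r))) = 0 := by
      rcases le_total (c (pl n (a r))) (c (conjT (pl n (a r)))) with h | h
      · rw [min_eq_left h] at h4; omega
      · rw [min_eq_right h] at h4; exact h4
    have h6 := habs (pl n (a r))
    have h7 := hz (pl n (a r))
    rw [h5] at h7
    have h8 : 0 < z (pl n (a r)) := by omega
    rw [abs_of_pos h8] at h6
    exact h6

end family

end Pool.Agent.Helper28.AF
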