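import Pool.Agent.Helper28.AF.WeilJ

/-!
The imaginary quadratic field of an exotic relation does not act by scalars on the Lie algebra.
-/

namespace Pool.Agent.Helper28.AF

open Module NumberField

open Pool.Agent.GPC Pool.Agent.Helper7
open Pool.Agent.Helper84 (xi act)

set_option linter.unusedSectionVars false

section family

variable {I : Type} [Fintype I] [DecidableEq I] (A : I → AbVar) (n : I → ℕ) (K : I → Type)
  [∀ i, Field (K i)] [∀ i, NumberField (K i)] [∀ i, IsCMField (K i)]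
  (C : ∀ i, CM (A i) (K i))

omit [Fintype I] [DecidableEq I] in
lemma fil_of_eig (i : I) (x : K i) (hconj : cmConj (K i) x = -x) (c : ℂ) (hc : c ≠ 0)
    (hfil : ∀ w, (A i).IsFil w → (C i).ρ x w = c • w) (v : (A i).H1)
    (hv : (C i).ρ x v = c • v) : (A i).IsFil v := by
  classical
  intro a
  obtain ⟨w, hw⟩ : ∃ w : (A i).H1, w = Pi.single (.inr a) 1 := ⟨_, rfl⟩
  have hwF : (A i).IsFil w := by
    intro b
    rw [hw]
    exact Pi.single_eq_of_ne (by simp) _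
  have h1 : (A i).pol v w = v (.inl a) := by
    unfold AbVar.pol
    rw [Finset.sum_eq_single a]
    · rw [hw, Pi.single_eq_same, Pi.single_eq_of_ne (by simp : (Sum.inl a : Fin (A i).g ⊕ Fin (A i).g) ≠ .inr a)]
      ring
    · intro b _ hb
      rw [hw, Pi.single_eq_of_ne (by simpa using hb), Pi.single_eq_of_ne (by simp)]
      ring
    · intro h
      exact absurd (Finset.mem_univ a) h
  have h2 := (C i).rosati x v w
  have h3 : (C i).ρ (-x) w = -(c • w) := by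
    rw [← hfil w hwF]
    have h4 : cmRho (C i) (-x) w = - cmRho (C i) x w := by rw [map_neg]; rfl
    exact h4
  rw [hconj, hv, h3] at h2
  have h5 : (A i).pol (c • v) w = c * (A i).pol v w := by
    rw [← pData_ψ, ← pData_ψ, map_smul, LinearMap.smul_apply, smul_eq_mul]
  have h6 : (A i).pol v (-(c • w)) = - (c * (A i).pol v w) := by
    rw [← pData_ψ, ← pData_ψ, map_neg, map_smul, smul_eq_mul]
  rw [h5, h6, h1] at h2
  have h7 : c * v (.inl a) = 0 := by linear_combination h2 / 2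
  exact (mul_eq_zero.mp h7).resolve_left hc

omit [Fintype I] [DecidableEq I] in
lemma mor_of_comm (x : ∀ i, K i) (hconj : ∀ i, cmConj (K i) (x i) = - x i) (c : ℂ) (hc : c ≠ 0)
    (hfil : ∀ i w, (A i).IsFil w → (C i).ρ (x i) w = c • w) (i j : I)
    (f : (A i).H1 →ₗ[ℂ] (A j).H1) (hb : ∀ v, (A i).IsBetti v → (A j).IsBetti (f v))
    (hf : ∀ v, f ((C i).ρ (x i) v) = (C j).ρ (x j) (f v)) : (A i).IsMor (A j) f := by
  have hh : ∀ v, (A i).IsFil v → (A j).IsFil (f v) := fun v hv =>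
    fil_of_eig A K C j (x j) (hconj j) c hc (hfil j) _ (by rw [← hf, hfil i v hv, map_smul])
  exact ⟨f.isLinear, hb, deRham_of_hodge _ _ f f.isLinear hb hh, hh⟩

omit [Fintype I] [DecidableEq I] in
/-- maps which commute with the action of an imaginary quadratic field -/
lemma exists_comm_map (x : ∀ i, K i) (d : ℚ) (hd : 0 < d) (hx : ∀ i, x i * x i = -(d : K i))
    (i j : I) (p : (pData (A i)).ι) (q : (pData (A j)).ι) :
    ∃ f : (A i).H1 →ₗ[ℂ] (A j).H1, (∀ v, (A i).IsBetti v → (A j).IsBetti (f v)) ∧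
      (∀ v, f ((C i).ρ (x i) v) = (C j).ρ (x j) (f v)) ∧ (∃ v, f v ≠ 0) ∧
      ∀ v, (pData (A i)).bB.coord p v = 0 →
        (pData (A i)).bB.coord p ((C i).ρ (x i) v) = 0 → f v = 0 := by
  classical
  obtain ⟨ℓ, hℓ⟩ : ∃ ℓ : (A i).H1 →ₗ[ℂ] ℂ, ℓ = (pData (A i)).bB.coord p := ⟨_, rfl⟩
  obtain ⟨w, hw⟩ : ∃ w : (A j).H1, w = (pData (A j)).bB q := ⟨_, rfl⟩
  have hdC : (d : ℂ) ≠ 0 := by exact_mod_cast hd.ne'
  have hw0 : w ≠ 0 := by rw [hw]; exact (pData (A j)).bB.ne_zero q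
  have hwB : w ∈ (pData (A j)).Q := by rw [hw]; exact (pData (A j)).basis_mem q
  have hJwB : (C j).ρ (x j) w ∈ (pData (A j)).Q :=
    (mem_pData_Q _ _).mpr (((C j).endo (x j)).betti _ ((mem_pData_Q _ _).mp hwB))
  have hrat : ∀ v, (A i).IsBetti v → ∃ r : ℚ, ℓ v = r := by
    intro v hv
    rw [hℓ]
    exact (pData (A i)).repr_rat _ ((mem_pData_Q _ _).mpr hv) p
  let f : (A i).H1 →ₗ[ℂ] (A j).H1 := ℓ.smulRight w -
    ((d : ℂ)⁻¹) • (ℓ ∘ₗ cmRho (C i) (x i)).smulRight ((C j).ρ (x j) w)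
  have hfa : ∀ v, f v = ℓ v • w - ((d : ℂ)⁻¹ * ℓ ((C i).ρ (x i) v)) • (C j).ρ (x j) w := by
    intro v
    show ℓ v • w - (d : ℂ)⁻¹ • (ℓ (cmRho (C i) (x i) v) • (C j).ρ (x j) w) = _
    rw [smul_smul]
    rfl
  refine ⟨f, fun v hv => ?_, fun v => ?_, ?_, fun v h1 h2 => ?_⟩
  · rw [← mem_pData_Q, hfa]
    obtain ⟨r, hr⟩ := hrat v hv
    obtain ⟨s, hs⟩ := hrat _ (((C i).endo (x i)).betti _ hv)
    rw [hr, hs]
    refine Submodule.sub_mem _ ((pData (A j)).rat_smul_mem _ _ hwB) ?_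
    have h1 : (d : ℂ)⁻¹ * (s : ℂ) = ((d⁻¹ * s : ℚ) : ℂ) := by push_cast; rfl
    rw [h1]
    exact (pData (A j)).rat_smul_mem _ _ hJwB
  · have h1 : (C j).ρ (x j) (f v) = cmRho (C j) (x j) (f v) := rfl
    have h2 : ∀ u, cmRho (C j) (x j) u = (C j).ρ (x j) u := fun _ => rfl
    rw [h1, hfa, hfa, map_sub, map_smul, map_smul, h2, h2, cm_sq A K C i (x i) d (hx i),
      cm_sq A K C j (x j) d (hx j), map_smul, smul_eq_mul, smul_smul]
    have e1 : (d : ℂ)⁻¹ * (-(d : ℂ) * ℓ v) = - ℓ v := by field_simp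
    have e2 : (d : ℂ)⁻¹ * ℓ ((C i).ρ (x i) v) * -(d : ℂ) = - ℓ ((C i).ρ (x i) v) := by field_simp
    rw [e1, e2, neg_smul, neg_smul, sub_neg_eq_add, sub_neg_eq_add, add_comm]
  · refine ⟨(pData (A i)).bB p, fun h0 => hw0 ?_⟩
    obtain ⟨s, hs⟩ := hrat _ (((C i).endo (x i)).betti _
      ((mem_pData_Q _ _).mp ((pData (A i)).basis_mem p)))
    have h1 : ℓ ((pData (A i)).bB p) = 1 := by
      rw [hℓ, Basis.coord_apply, Basis.repr_self, Finsupp.single_eq_same]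
    rw [hfa, h1, hs, one_smul, sub_eq_zero] at h0
    have h2 : cmRho (C j) (x j) w = (C j).ρ (x j) w := rfl
    have h3 : (C j).ρ (x j) w = ((d : ℂ)⁻¹ * s * -(d : ℂ)) • w := by
      conv_lhs => rw [h0]
      have h4 : (C j).ρ (x j) (((d : ℂ)⁻¹ * s) • (C j).ρ (x j) w) =
          cmRho (C j) (x j) (((d : ℂ)⁻¹ * s) • (C j).ρ (x j) w) := rfl
      rw [h4, map_smul]
      show ((d : ℂ)⁻¹ * s) • (C j).ρ (x j) ((C j).ρ (x j) w) = _
      rw [cm_sq A K C j (x j) d (hx j), smul_smul]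
    rw [h3, smul_smul] at h0
    have h5 : (1 - ((d : ℂ)⁻¹ * s) * ((d : ℂ)⁻¹ * s * -(d : ℂ))) • w = 0 := by
      rw [sub_smul, one_smul, ← h0, sub_self]
    rcases smul_eq_zero.mp h5 with h6 | h6
    · exfalso
      have h7 : (((1 + s * s / d : ℚ)) : ℂ) = 0 := by
        rw [← h6]
        push_cast
        field_simp
        ring
      have h8 : (1 + s * s / d : ℚ) = 0 := by exact_mod_cast h7
      have h9 : 0 ≤ s * s / d := div_nonneg (mul_self_nonneg s) hd.le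
      linarith
    · exact h6
  · rw [hfa, hℓ, h1, h2, mul_zero, zero_smul, zero_smul, sub_zero]

/-- the imaginary quadratic field of an exotic relation does not act by scalars on the Lie
algebra -/
lemma not_scalar (i₀ : I) (hs : ∀ i, (A i).IsSimple)
    (hA : ∀ i j, i ≠ j → ∀ f, (A i).IsMor (A j) f → ∀ v, f v = 0) (hn : ∀ i, n i ≠ 0)
    (x : ∀ i, K i) (d : ℚ) (hd : 0 < d) (hx : ∀ i, x i * x i = -(d : K i))
    (hconj : ∀ i, cmConj (K i) (x i) = - x i) (U : Submodule ℚ (Emb K → ℚ))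
    (hU : IsOddModule K U) (hne : ∀ i, ∃ w : Emb K → ℚ, IsOdd K w ∧
      (∀ j σ, j ≠ i → w ⟨j, σ⟩ = 0) ∧ w ∉ U)
    (z : Emb K → ℤ) (hzU : (fun t => (z t : ℚ)) ∈ U) (hz0 : ∀ t, z t ≠ 0) :
    ¬ ∃ c : ℂ, ∀ v, IsFil A n v → famJ A n K C x v = c • v := by
  classical
  rintro ⟨c, hc⟩
  have hg : ∀ i, (A i).g ≠ 0 := by
    intro i h
    have h1 := (C i).degree
    rw [h, mul_zero] at h1
    exact (finrank_pos (R := ℚ) (M := K i)).ne' h1
  have hι : ∀ i, Nonempty (pData (A i)).ι := by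
    intro i
    have : Nonempty (Fin (A i).g ⊕ Fin (A i).g) := ⟨.inl ⟨0, Nat.pos_of_ne_zero (hg i)⟩⟩
    have : Nontrivial (Fin (A i).g ⊕ Fin (A i).g → ℂ) := inferInstance
    exact (pData (A i)).bB.index_nonempty
  have hfil : ∀ i w, (A i).IsFil w → (C i).ρ (x i) w = c • w := by
    intro i w hw
    have h1 := hc _ (slotL_fil A n i ⟨0, Nat.pos_of_ne_zero (hn i)⟩ w hw)
    have h2 := congrFun (congrFun h1 i) ⟨0, Nat.pos_of_ne_zero (hn i)⟩
    have h3 : (slotL n i ⟨0, Nat.pos_of_ne_zero (hn i)⟩ w : H1 A n) i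
        ⟨0, Nat.pos_of_ne_zero (hn i)⟩ = w :=
      prL_slotL (κ := fun i => Fin (A i).g ⊕ Fin (A i).g) n i _ w
    have h4 : (C i).ρ (x i) ((slotL n i ⟨0, Nat.pos_of_ne_zero (hn i)⟩ w : H1 A n) i
        ⟨0, Nat.pos_of_ne_zero (hn i)⟩) = c • ((slotL n i ⟨0, Nat.pos_of_ne_zero (hn i)⟩ w :
        H1 A n) i ⟨0, Nat.pos_of_ne_zero (hn i)⟩) := h2
    rwa [h3] at h4
  have hc0 : c ≠ 0 := by
    rintro rfl
    obtain ⟨w, hw⟩ : ∃ w : (A i₀).H1, w = Pi.single (.inr ⟨0, Nat.pos_of_ne_zero (hg i₀)⟩) 1 :=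
      ⟨_, rfl⟩
    have hwF : (A i₀).IsFil w := by
      intro b
      rw [hw]
      exact Pi.single_eq_of_ne (by simp) _
    have h1 := hfil i₀ w hwF
    have h2 := cm_sq A K C i₀ (x i₀) d (hx i₀) w
    rw [h1, zero_smul] at h2
    have h3 : (C i₀).ρ (x i₀) 0 = 0 := map_zero (cmRho (C i₀) (x i₀))
    rw [h3] at h2
    rcases smul_eq_zero.mp h2.symm with h4 | h4
    · have h5 : (d : ℂ) = 0 := by linear_combination -h4
      exact hd.ne' (by exact_mod_cast h5)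
    · have h5 := congrFun h4 (.inr ⟨0, Nat.pos_of_ne_zero (hg i₀)⟩)
      rw [hw, Pi.single_eq_same] at h5
      exact one_ne_zero h5
  -- there is only one factor
  have hsub : ∀ i, i = i₀ := by
    intro i
    by_contra hne
    obtain ⟨p⟩ := hι i
    obtain ⟨q⟩ := hι i₀
    obtain ⟨f, hb, hf, ⟨v, hv⟩, -⟩ := exists_comm_map A K C x d hd hx i i₀ p q
    exact hv (hA i i₀ hne f (mor_of_comm A K C x hconj c hc0 hfil i i₀ f hb hf) v)
  -- it is an elliptic curve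
  have hg1 : (A i₀).g = 1 := by
    by_contra hne
    have hg2 : 2 ≤ (A i₀).g := by
      have := hg i₀
      omega
    obtain ⟨p⟩ := hι i₀
    obtain ⟨f, hb, hf, hv, hker⟩ := exists_comm_map A K C x d hd hx i₀ i₀ p p
    have hm := mor_of_comm A K C x hconj c hc0 hfil i₀ i₀ f hb hf
    have hinj := hs i₀ f ⟨hm.1, hm.2, hm.3, hm.4⟩ hv
    let g : (A i₀).H1 →ₗ[ℂ] (Fin 2 → ℂ) := LinearMap.pi ![(pData (A i₀)).bB.coord p,
      (pData (A i₀)).bB.coord p ∘ₗ cmRho (C i₀) (x i₀)]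
    have h1 : LinearMap.ker g ≠ ⊥ := by
      apply LinearMap.ker_ne_bot_of_finrank_lt
      rw [Module.finrank_fintype_fun_eq_card, Module.finrank_fintype_fun_eq_card]
      simp only [Fintype.card_fin, Fintype.card_sum]
      omega
    obtain ⟨v, hv1, hv2⟩ := Submodule.exists_mem_ne_zero_of_ne_bot h1
    rw [LinearMap.mem_ker] at hv1
    have h2 := congrFun hv1 0
    have h3 := congrFun hv1 1
    apply hv2
    apply hinj
    rw [hker v h2 h3, map_zero]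
  have hd2 : finrank ℚ (K i₀) = 2 := by rw [(C i₀).degree, hg1]
  -- all odd functions are proportional
  obtain ⟨w, hw1, -, hw3⟩ := hne i₀
  apply hw3
  obtain ⟨σ₀⟩ : Nonempty (K i₀ →+* ℂ) := inferInstance
  have hσ : σ₀ ≠ ComplexEmbedding.conjugate σ₀ := fun h => Helper84.cc_ne σ₀ h.symm
  have huniv : ({σ₀, ComplexEmbedding.conjugate σ₀} : Finset (K i₀ →+* ℂ)) = Finset.univ :=
    Finset.eq_of_subset_of_card_le (Finset.subset_univ _)
      (by rw [Finset.card_pair hσ, Finset.card_univ, card_emb, hd2])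
  have h1 : w = (w ⟨i₀, σ₀⟩ / z ⟨i₀, σ₀⟩) • fun t => (z t : ℚ) := by
    funext t
    obtain ⟨i, τ⟩ := t
    have hi := hsub i
    subst hi
    have hz1 : (z ⟨i, σ₀⟩ : ℚ) ≠ 0 := by exact_mod_cast hz0 ⟨i, σ₀⟩
    have hτ : τ ∈ ({σ₀, ComplexEmbedding.conjugate σ₀} : Finset (K i →+* ℂ)) := by
      rw [huniv]; exact Finset.mem_univ _
    rw [Finset.mem_insert, Finset.mem_singleton] at hτ
    rw [Pi.smul_apply, smul_eq_mul]
    rcases hτ with rfl | rfl
    · rw [div_mul_cancel₀ _ hz1]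
    · have h2 := (hU _ hzU).1 i σ₀
      simp only at h2
      rw [hw1, h2]
      field_simp
  rw [h1]
  exact U.smul_mem _ hzU

end family

end Pool.Agent.Helper28.AF
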