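import Pool.Agent.Helper28.AF.SpanC
import Pool.Agent.Helper28.AF.CMLabel
import Pool.Agent.Helper24.AF.QuadElem
import Pool.Agent.Helper11.AF.Rigid

/-!
The Weil structure attached to an exotic relation between the weights of abelian varieties with
complex multiplication.
-/

namespace Pool.Agent.Helper28.AF

open Module NumberField

open Pool.Agent.GPC Pool.Agent.Helper7
open Pool.Agent.Helper84 (xi act)

set_option linter.unusedSectionVars false

section alt

variable {W : Type*} [AddCommGroup W] [Module ℂ W]

/-- alternatization of multilinear maps on which `J` acts by a scalar in each slot -/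
lemma alt_update {m : ℕ} (M : MultilinearMap ℂ (fun _ : Fin m => W) ℂ) (J : W → W) (c : ℂ)
    (hM : ∀ v r, M (Function.update v r (J (v r))) = c * M v) (v : Fin m → W) (r : Fin m) :
    MultilinearMap.alternatization M (Function.update v r (J (v r))) =
      c * MultilinearMap.alternatization M v := by
  rw [MultilinearMap.alternatization_apply, MultilinearMap.alternatization_apply, Finset.mul_sum]
  refine Finset.sum_congr rfl fun π _ => ?_
  have h1 : (fun i => Function.update v r (J (v r)) (π i)) =
      Function.update (fun i => v (π i)) (π.symm r)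
        (J ((fun i => v (π i)) (π.symm r))) := by
    funext i
    by_cases h : i = π.symm r
    · subst h
      rw [Function.update_self, Equiv.apply_symm_apply, Function.update_self]
      show J (v r) = J (v (π (π.symm r)))
      rw [Equiv.apply_symm_apply]
    · rw [Function.update_of_ne h, Function.update_of_ne]
      intro h2
      exact h (by rw [← h2, Equiv.symm_apply_apply])
  have h2 : (M.domDomCongr π) (Function.update v r (J (v r))) = c * (M.domDomCongr π) v := by
    rw [MultilinearMap.domDomCongr_apply, MultilinearMap.domDomCongr_apply, h1, hM]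
  rw [h2, mul_smul_comm]

end alt

section family

variable {I : Type} [Fintype I] [DecidableEq I] (A : I → AbVar) (n : I → ℕ) (K : I → Type)
  [∀ i, Field (K i)] [∀ i, NumberField (K i)] [∀ i, IsCMField (K i)]
  (C : ∀ i, CM (A i) (K i))

/-- the slotwise action of a family of elements -/
def famJ (x : ∀ i, K i) (v : H1 A n) : H1 A n := fun i m => (C i).ρ (x i) (v i m)

omit [Fintype I] [DecidableEq I] in
lemma famJ_endo (x : ∀ i, K i) : IsEndo A n (famJ A n K C x) where
  linear := by
    refine ⟨fun u v => ?_, fun c v => ?_⟩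
    · funext i m
      exact ((C i).endo (x i)).linear.map_add _ _
    · funext i m
      exact ((C i).endo (x i)).linear.map_smul _ _
  betti v hv i m := ((C i).endo (x i)).betti _ (hv i m)
  deRham v hv i m := ((C i).endo (x i)).deRham _ (hv i m)
  hodge v hv i m := ((C i).endo (x i)).hodge _ (hv i m)

omit [Fintype I] [DecidableEq I] in
lemma cm_rat (i : I) (a : ℚ) (v : (A i).H1) : (C i).ρ (a : K i) v = (a : ℂ) • v := by
  have h1 := rho_ratsmul (cmRho (C i)) a 1
  rw [Algebra.smul_def, mul_one, map_one] at h1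
  have h2 := congrArg (fun f : Module.End ℂ (A i).H1 => f v) h1
  have h3 : cmRho (C i) (algebraMap ℚ (K i) a) v = (a : ℂ) • v := h2
  exact h3

omit [Fintype I] [DecidableEq I] in
lemma cm_sq (i : I) (x : K i) (d : ℚ) (hx : x * x = -(d : K i)) (v : (A i).H1) :
    (C i).ρ x ((C i).ρ x v) = (-(d : ℂ)) • v := by
  rw [← (C i).mul, hx]
  have h1 : (-(d : K i)) = ((-d : ℚ) : K i) := by push_cast; rfl
  rw [h1, cm_rat]
  push_cast
  rfl

/-- a linear map from its matrix of morphisms -/
lemma slotL_betti (i : I) (m : Fin (n i)) (u : (A i).H1) (hu : (A i).IsBetti u) :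
    IsBetti A n (slotL n i m u) := by
  intro j m'
  have h1 := slot_isRatP n (fun i => pData (A i)) i m u ((mem_pData_Q _ _).mpr hu) j m'
  exact (mem_pData_Q _ _).mp h1

omit [Fintype I] in
lemma slotL_cases (i : I) (m : Fin (n i)) (u : (A i).H1) (j : I) (m' : Fin (n j))
    (p : ∀ j, (A j).H1 → Prop) (h0 : ∀ j, p j 0) (hu : p i u) :
    p j ((slotL n i m u : H1 A n) j m') := by
  by_cases hj : j = i
  · subst hj
    by_cases hm : m' = m
    · subst hm
      have h1 : (slotL n j m' u : H1 A n) j m' = u :=
        prL_slotL (κ := fun i => Fin (A i).g ⊕ Fin (A i).g) n j m' u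
      rw [h1]; exact hu
    · have h1 : (slotL n j m u : H1 A n) j m' = 0 :=
        prL_slotL_ne (κ := fun i => Fin (A i).g ⊕ Fin (A i).g) n j m m' hm u
      rw [h1]; exact h0 j
  · have h1 : (slotL n i m u : H1 A n) j m' = 0 :=
      prL_slotL_ne' (κ := fun i => Fin (A i).g ⊕ Fin (A i).g) n i j m m' hj u
    rw [h1]; exact h0 j

omit [Fintype I] in
lemma slotL_deRham (i : I) (m : Fin (n i)) (u : (A i).H1) (hu : (A i).IsDeRham u) :
    IsDeRham A n (slotL n i m u) := fun j m' =>
  slotL_cases A n i m u j m' (fun j w => (A j).IsDeRham w)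
    (fun _ _ => isAlgebraic_zero) hu

omit [Fintype I] in
lemma slotL_fil (i : I) (m : Fin (n i)) (u : (A i).H1) (hu : (A i).IsFil u) :
    IsFil A n (slotL n i m u) := fun j m' =>
  slotL_cases A n i m u j m' (fun j w => (A j).IsFil w) (fun _ _ => rfl) hu

/-- the blocks of an endomorphism are morphisms -/
lemma block_mor (f : H1 A n → H1 A n) (hf : IsEndo A n f) (i j : I) (m : Fin (n i))
    (m' : Fin (n j)) : (A i).IsMor (A j) (fun u => f (slotL n i m u) j m') where
  linear := by
    refine ⟨fun u v => ?_, fun c v => ?_⟩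
    · rw [map_add, hf.linear.map_add]; rfl
    · rw [map_smul, hf.linear.map_smul]; rfl
  betti u hu := hf.betti _ (slotL_betti A n i m u hu) j m'
  deRham u hu := hf.deRham _ (slotL_deRham A n i m u hu) j m'
  hodge u hu := hf.hodge _ (slotL_fil A n i m u hu) j m'

/-- the action commutes with all endomorphisms -/
lemma famJ_comm (hT : ∀ i, NotProportional (A i)) (hs : ∀ i, (A i).IsSimple)
    (hA : ∀ i j, i ≠ j → ∀ f, (A i).IsMor (A j) f → ∀ v, f v = 0)
    (x : ∀ i, K i) (f : H1 A n → H1 A n) (hf : IsEndo A n f) (v : H1 A n) :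
    famJ A n K C x (f v) = f (famJ A n K C x v) := by
  obtain ⟨L, hL⟩ : ∃ L : H1 A n →ₗ[ℂ] H1 A n, ∀ v, L v = f v := ⟨IsLinearMap.mk' f hf.linear,
    fun v => rfl⟩
  have hdec : ∀ v : H1 A n, f v = ∑ i, ∑ m, f (slotL n i m (v i m)) := by
    intro v
    have h1 : L v = ∑ i, ∑ m, L (slotL n i m (v i m)) := by
      conv_lhs => rw [← sum_slot n v]
      simp only [map_sum]
    rw [← hL, h1]
    simp only [hL]
  funext j m'
  have h1 : famJ A n K C x (f v) j m' = cmRho (C j) (x j) (f v j m') := rfl
  rw [h1, hdec v, hdec (famJ A n K C x v)]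
  simp only [Finset.sum_apply, map_sum]
  refine Finset.sum_congr rfl fun i _ => Finset.sum_congr rfl fun m _ => ?_
  have h2 := block_mor A n f hf i j m m'
  by_cases hij : i = j
  · subst hij
    have h3 : (A i).IsEnd (fun u => f (slotL n i m u) i m') := ⟨h2.1, h2.2, h2.3, h2.4⟩
    obtain ⟨y, hy⟩ := FS.simple_rho (.inr ⟨cmFac (A i) (K i) (C i) (hT i), fun h => h⟩ :
      FS (pData (A i)) (K i)) (fun h => by simp at h)
      (fun g hg hg0 => hs i g (isEnd_of_isDRB (A i) g hg) hg0)
      (IsLinearMap.mk' _ h3.linear) (isDRB_of_isEnd (A i) _ h3)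
    have hy' : ∀ u, f (slotL n i m u) i m' = cmRho (C i) y u := hy
    rw [hy', hy']
    show (C i).ρ (x i) ((C i).ρ y (v i m)) = (C i).ρ y ((C i).ρ (x i) (v i m))
    rw [← (C i).mul, ← (C i).mul, mul_comm]
  · rw [hA i j hij _ h2, hA i j hij _ h2, map_zero]

end family

end Pool.Agent.Helper28.AF
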